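import Pool.Agent.Work.MP_bc729a_al.CG.Fin

set_option autoImplicit false

namespace Pool.Agent.Results.MP_bc729a_al.ClassicalGroups

open Module

universe u v w

/-- Every maximal subgroup `M` of `G` has a complement: a subgroup `K` with `M K = G` and
`M ∩ K = 1`. -/
def MaxComplemented (G : Type u) [Group G] : Prop :=
  ∀ M : Subgroup G, IsCoatom M → ∃ K : Subgroup G, M.IsComplement' K

/-- `s` is a composition series of `G`: a chain `1 = s 0 ≤ s 1 ≤ ... ≤ s m = G` of subgroups, each
normal in the next one with simple quotient. -/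
def IsCompositionSeries {G : Type u} [Group G] {m : ℕ} (s : Fin (m + 1) → Subgroup G) : Prop :=
  s 0 = ⊥ ∧ s (Fin.last m) = ⊤ ∧ ∀ i : Fin m, s i.castSucc ≤ s i.succ ∧
    ∃ _ : ((s i.castSucc).subgroupOf (s i.succ)).Normal,
      IsSimpleGroup (↥(s i.succ) ⧸ (s i.castSucc).subgroupOf (s i.succ))

/-- `S` is isomorphic to a composition factor of `G`. -/
def IsCompositionFactor (S : Type v) [Group S] (G : Type u) [Group G] : Prop :=
  ∃ (m : ℕ) (s : Fin (m + 1) → Subgroup G), IsCompositionSeries s ∧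
    ∃ (i : Fin m) (_ : ((s i.castSucc).subgroupOf (s i.succ)).Normal),
      Nonempty ((↥(s i.succ) ⧸ (s i.castSucc).subgroupOf (s i.succ)) ≃* S)

variable {F : Type u} {V : Type v} [Field F] [AddCommGroup V] [Module F V]

/-- The symplectic group `Sp(V, B)` of a bilinear form `B`: all isometries of `B`. -/
def Sp (B : LinearMap.BilinForm F V) : Subgroup (V ≃ₗ[F] V) where
  carrier := {g | ∀ u v, B (g u) (g v) = B u v}
  one_mem' := fun _ _ => rfl
  mul_mem' := (Pool.Agent.Work.MP_bc729a_al.CG.SpB B).mul_mem'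
  inv_mem' := (Pool.Agent.Work.MP_bc729a_al.CG.SpB B).inv_mem'

/-- The special unitary group `SU(V, h)` of a form `h`, semilinear in the first and linear in the
second variable: all isometries of `h` of determinant one. -/
def SU {σ : F →+* F} (h : V →ₛₗ[σ] V →ₗ[F] F) : Subgroup (V ≃ₗ[F] V) where
  carrier := {g | (∀ u v, h (g u) (g v) = h u v) ∧ LinearEquiv.det g = 1}
  one_mem' := ⟨fun _ _ => rfl, map_one _⟩
  mul_mem' := (Pool.Agent.Work.MP_bc729a_al.CG.SUh h).mul_mem'
  inv_mem' := (Pool.Agent.Work.MP_bc729a_al.CG.SUh h).inv_mem'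

/-- The orthogonal group `O(V, Q)` of a quadratic form `Q`: all isometries of `Q`. -/
def O (Q : QuadraticForm F V) : Subgroup (V ≃ₗ[F] V) where
  carrier := {g | ∀ v, Q (g v) = Q v}
  one_mem' := fun _ => rfl
  mul_mem' := (Pool.Agent.Work.MP_bc729a_al.CG.OQ Q).mul_mem'
  inv_mem' := (Pool.Agent.Work.MP_bc729a_al.CG.OQ Q).inv_mem'

/-- The quotient of `D` by its centre. -/
abbrev P (D : Subgroup (V ≃ₗ[F] V)) : Type v := ↥D ⧸ Subgroup.center ↥D

/-- Let `G` be a finite group in which every maximal subgroup has a complement, and let `V` be a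
vector space of finite dimension over a finite field `F`.
(a) If `B` is a nondegenerate alternating form on `V` and `dim V ≥ 5`, then `PSp(V, B)` is not a
composition factor of `G`. (b) If `h` is a nondegenerate hermitian form on `V` and `dim V ≥ 6`, then
`PSU(V, h)` is not a composition factor of `G`. (c) If `Q` is a quadratic form on `V` with
nondegenerate polar form, `dim V ≥ 7`, and it is not the case that `dim V = 8` and `V` has a totally
singular subspace of dimension `4`, then `PΩ(V, Q)`, the quotient of the commutator subgroup of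
`O(V, Q)` by its centre, is not a composition factor of `G`. -/
theorem result (G : Type w) [Group G] [Finite G] (hG : MaxComplemented G)
    (F : Type u) [Field F] [Finite F] (V : Type v) [AddCommGroup V] [Module F V] [Finite V] :
    (∀ B : LinearMap.BilinForm F V, B.IsAlt → B.Nondegenerate → 5 ≤ finrank F V →
      ¬ IsCompositionFactor (P (Sp B)) G) ∧
    (∀ (σ : F →+* F) (h : V →ₛₗ[σ] V →ₗ[F] F), (∀ a, σ (σ a) = a) → (∃ a, σ a ≠ a) →
      (∀ u v, σ (h u v) = h v u) → (∀ u, (∀ v, h u v = 0) → u = 0) → 6 ≤ finrank F V →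
      ¬ IsCompositionFactor (P (SU h)) G) ∧
    (∀ Q : QuadraticForm F V, (∀ u, (∀ v, QuadraticMap.polar Q u v = 0) → u = 0) →
      7 ≤ finrank F V →
      ¬ (finrank F V = 8 ∧ ∃ E : Submodule F V, finrank F E = 4 ∧ ∀ v ∈ E, Q v = 0) →
      ¬ IsCompositionFactor (P ⁅O Q, O Q⁆) G) := by
  refine ⟨fun B hB hn hd h => ?_, fun σ f h2 h1 hs hn hd h => ?_, fun Q hn hd h8 h => ?_⟩
  · exact Pool.Agent.Work.MP_bc729a_al.CG.no_sp B hB (fun u hu => hn.1 u hu) hd G hG h
  · exact Pool.Agent.Work.MP_bc729a_al.CG.no_herm f h2 h1 hs hn hd G hG h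
  · exact Pool.Agent.Work.MP_bc729a_al.CG.no_orth Q hn hd h8 G hG h

end Pool.Agent.Results.MP_bc729a_al.ClassicalGroups
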