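import Pool.Agent.Work.MP_bc729a_al.L2.Final

set_option autoImplicit false

namespace Pool.Agent.Results.MP_bc729a_al.LTwoQ

universe u v

/-- Every maximal subgroup `M` of `G` has a complement: a subgroup `K` with `M K = G` and
`M ∩ K = 1`. -/
def MaxComplemented (G : Type u) [Group G] : Prop :=
  ∀ M : Subgroup G, IsCoatom M → ∃ K : Subgroup G, M.IsComplement' K

/-- `s` is a composition series of `G`: a chain `1 = s 0 ≤ s 1 ≤ ... ≤ s m = G` of subgroups, each
normal in the next one with simple quotient. -/
def IsCompositionSeries {G : Type u} [Group G] {m : ℕ} (s : Fin (m + 1) → Subgroup G) : Prop :=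
  s 0 = ⊥ ∧ s (Fin.last m) = ⊤ ∧ ∀ i : Fin m, s i.castSucc ≤ s i.succ ∧
    ∃ _ : ((s i.castSucc).subgroupOf (s i.succ)).Normal,
      IsSimpleGroup (↥(s i.succ) ⧸ (s i.castSucc).subgroupOf (s i.succ))

/-- `S` is isomorphic to a composition factor of `G`. -/
def IsCompositionFactor (S : Type v) [Group S] (G : Type u) [Group G] : Prop :=
  ∃ (m : ℕ) (s : Fin (m + 1) → Subgroup G), IsCompositionSeries s ∧
    ∃ (i : Fin m) (_ : ((s i.castSucc).subgroupOf (s i.succ)).Normal),
      Nonempty ((↥(s i.succ) ⧸ (s i.castSucc).subgroupOf (s i.succ)) ≃* S)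

/-- Let `F` be a finite field with `q ≥ 4` elements. If every maximal subgroup of the finite group
`G` has a complement and `L_2(q) = PSL(2, F)` is a composition factor of `G`, then `q = 7` or
`q = 11`. -/
theorem result (G : Type u) [Group G] [Finite G] (hG : MaxComplemented G) (F : Type v) [Field F]
    [Finite F] (hF : 4 ≤ Nat.card F)
    (h : IsCompositionFactor (Matrix.ProjectiveSpecialLinearGroup (Fin 2) F) G) :
    Nat.card F = 7 ∨ Nat.card F = 11 := by
  have := Fintype.ofFinite F
  rw [Nat.card_eq_fintype_card] at hF ⊢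
  exact Pool.Agent.Work.MP_bc729a_al.L2.final G hG F hF h

end Pool.Agent.Results.MP_bc729a_al.LTwoQ
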