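import Pool.Agent.Work.MP_bc729a_al.L2.Final
import Pool.Agent.Work.MP_bc729a_al.LA.Main

set_option autoImplicit false

namespace Pool.Agent.Results.MP_bc729a_al.LinearGroups

universe u v

/-- Every maximal subgroup `M` of `G` has a complement: a subgroup `K` with `M K = G` and
`M ∩ K = 1`. -/
def MaxComplemented (G : Type u) [Group G] : Prop :=
  ∀ M : Subgroup G, IsCoatom M → ∃ K : Subgroup G, M.IsComplement' K

/-- `s` is a composition series of `G`: a chain `1 = s 0 ≤ s 1 ≤ ... ≤ s m = G` of subgroups, each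
normal in the next one with simple quotient. -/
def IsCompositionSeries {G : Type u} [Group G] {m : ℕ} (s : Fin (m + 1) → Subgroup G) : Prop :=
  s 0 = ⊥ ∧ s (Fin.last m) = ⊤ ∧ ∀ i : Fin m, s i.castSucc ≤ s i.succ ∧
    ∃ _ : ((s i.castSucc).subgroupOf (s i.succ)).Normal,
      IsSimpleGroup (↥(s i.succ) ⧸ (s i.castSucc).subgroupOf (s i.succ))

/-- `S` is isomorphic to a composition factor of `G`. -/
def IsCompositionFactor (S : Type v) [Group S] (G : Type u) [Group G] : Prop :=
  ∃ (m : ℕ) (s : Fin (m + 1) → Subgroup G), IsCompositionSeries s ∧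
    ∃ (i : Fin m) (_ : ((s i.castSucc).subgroupOf (s i.succ)).Normal),
      Nonempty ((↥(s i.succ) ⧸ (s i.castSucc).subgroupOf (s i.succ)) ≃* S)

/-- Let `G` be a finite group in which every maximal subgroup has a complement, let `n ≥ 2` and let
`F` be a finite field with `q` elements, `(n, q) ≠ (2, 2), (2, 3)`. If `L_n(q) = PSL(n, F)` is a
composition factor of `G`, then `(n, q)` is `(2, 7)`, `(2, 11)`, `(3, 2)` or `(5, 2)`. -/
theorem result (G : Type u) [Group G] [Finite G] (hG : MaxComplemented G) (n : ℕ) (hn : 2 ≤ n)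
    (F : Type v) [Field F] [Finite F] (hF : ¬ (n = 2 ∧ Nat.card F ≤ 3))
    (h : IsCompositionFactor (Matrix.ProjectiveSpecialLinearGroup (Fin n) F) G) :
    (n, Nat.card F) = (2, 7) ∨ (n, Nat.card F) = (2, 11) ∨ (n, Nat.card F) = (3, 2) ∨
      (n, Nat.card F) = (5, 2) := by
  simp only [Prod.mk.injEq]
  by_cases h2 : n = 2
  · subst h2
    have := Fintype.ofFinite F
    have h4 : 4 ≤ Nat.card F := by
      by_contra h5
      exact hF ⟨rfl, by omega⟩
    rw [Nat.card_eq_fintype_card] at h4 ⊢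
    rcases Pool.Agent.Work.MP_bc729a_al.L2.final G hG F h4 h with h6 | h6
    · exact Or.inl ⟨rfl, h6⟩
    · exact Or.inr (Or.inl ⟨rfl, h6⟩)
  · rcases Pool.Agent.Work.MP_bc729a_al.LA.main G hG (by omega : 3 ≤ n) h with h6 | h6
    · exact Or.inr (Or.inr (Or.inl h6))
    · exact Or.inr (Or.inr (Or.inr h6))

end Pool.Agent.Results.MP_bc729a_al.LinearGroups
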